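import Pool.Agent.PFRNeg.QuantZ

/-!
# MP_86f7a7_co, Q1: the polynomial Freiman-Ruzsa conjecture fails in torsion-free groups

For every `C ≥ 1` and ALL large `K` there is a finite `A ⊂ ℤⁿ` with `|A + A| ≤ K |A|` such that every
progression `P`, of arbitrary rank, with `|P| ≤ C K^C |A|` meets `A` in fewer than `C⁻¹ K^(-C) |A|` points.
-/

set_option autoImplicit false

open scoped Pointwise

namespace Pool.Agent.Results.MP_86f7a7_co.AnyRankFails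

theorem result :
    ∀ C : ℝ, 1 ≤ C → ∃ K₀ : ℝ, ∀ K : ℝ, K₀ ≤ K →
      ∃ n : ℕ, (4 : ℝ) ^ n ≤ K ∧ ∃ A : Finset (Fin n → ℤ),
        A.Nonempty ∧ ((A + A).card : ℝ) ≤ K * A.card ∧
        ∀ (d : ℕ) (a : Fin n → ℤ) (v : Fin d → Fin n → ℤ) (N : Fin d → ℕ) (P : Set (Fin n → ℤ)),
          P = {x | ∃ k : Fin d → ℕ, (∀ i, k i < N i) ∧ x = a + ∑ i, k i • v i} →
          (P.ncard : ℝ) ≤ C * K ^ C * A.card →
          (((A : Set (Fin n → ℤ)) ∩ P).ncard : ℝ) < C⁻¹ * K ^ (-C) * A.card := by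
  intro C hC
  obtain ⟨K₀, h⟩ := Pool.Agent.PFRNeg.quantK C hC
  refine ⟨K₀, fun K hK => ?_⟩
  obtain ⟨n, hn, A, h1, h2, h3⟩ := h K hK
  refine ⟨n, hn, A, h1, ?_, h3⟩
  have h4 : (A + A) = (A + A) := rfl
  simpa using h2

end Pool.Agent.Results.MP_86f7a7_co.AnyRankFails
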